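import Mathlib

/-!
# Autocorrelations are largest at the origin, and the number of parity vectors
-/

set_option autoImplicit false

namespace Pool.Agent.H547_pp

open Finset

open scoped Classical in
/-- For a map `γ` to a finite group and any map `f`, the number of the pairs `(x, z)` with the same
`f` and `γ z = γ x - e` is largest for `e = 0`. -/
theorem card_pairs_le {X T Γ : Type*} [Fintype X] [AddCommGroup Γ] [Fintype Γ]
    (f : X → T) (γ : X → Γ) (e : Γ) :
    (univ.filter fun q : X × X => f q.1 = f q.2 ∧ γ q.2 = γ q.1 - e).card ≤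
      (univ.filter fun q : X × X => f q.1 = f q.2 ∧ γ q.2 = γ q.1).card := by
  let n : T → Γ → ℕ := fun t g => (univ.filter fun x : X => f x = t ∧ γ x = g).card
  have key : ∀ e : Γ, (univ.filter fun q : X × X => f q.1 = f q.2 ∧ γ q.2 = γ q.1 - e).card =
      ∑ t ∈ univ.image f, ∑ g : Γ, n t g * n t (g - e) := by
    intro e
    have h1 : (univ.filter fun q : X × X => f q.1 = f q.2 ∧ γ q.2 = γ q.1 - e) =
        (univ.image f).biUnion fun t => univ.biUnion fun g : Γ =>
          (univ.filter fun x : X => f x = t ∧ γ x = g) ×ˢ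
            (univ.filter fun x : X => f x = t ∧ γ x = g - e) := by
      ext q
      simp only [mem_filter, mem_univ, true_and, mem_biUnion, mem_image, mem_product]
      constructor
      · rintro ⟨h1, h2⟩
        exact ⟨f q.1, ⟨q.1, rfl⟩, γ q.1, ⟨rfl, rfl⟩, h1.symm, h2⟩
      · rintro ⟨t, _, g, ⟨h1, h2⟩, h3, h4⟩
        exact ⟨h1.trans h3.symm, by rw [h4, h2]⟩
    rw [h1, card_biUnion]
    · refine sum_congr rfl fun t _ => ?_
      rw [card_biUnion]
      · refine sum_congr rfl fun g _ => ?_
        rw [card_product]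
      · intro g _ g' _ hgg
        rw [Function.onFun, disjoint_left]
        intro q hq hq'
        rw [mem_product, mem_filter] at hq hq'
        exact hgg (hq.1.2.2.symm.trans hq'.1.2.2)
    · intro t _ t' _ htt
      rw [Function.onFun, disjoint_left]
      intro q hq hq'
      simp only [mem_biUnion, mem_univ, true_and, mem_product, mem_filter] at hq hq'
      obtain ⟨g, hq, _⟩ := hq
      obtain ⟨g', hq', _⟩ := hq'
      exact htt (hq.1.symm.trans hq'.1)
  have key0 := key 0
  simp only [sub_zero] at key0
  rw [key e, key0]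
  refine sum_le_sum fun t _ => ?_
  have h2 : ∑ g : Γ, n t (g - e) * n t (g - e) = ∑ g : Γ, n t g * n t g :=
    (Equiv.subRight e).sum_comp fun g => n t g * n t g
  have h3 : 2 * ∑ g : Γ, n t g * n t (g - e) ≤
      ∑ g : Γ, n t g * n t g + ∑ g : Γ, n t (g - e) * n t (g - e) := by
    rw [mul_sum, ← sum_add_distrib]
    refine sum_le_sum fun g _ => ?_
    nlinarith [sq_nonneg ((n t g : ℤ) - n t (g - e)), two_mul_le_add_sq (n t g) (n t (g - e))]
  rw [h2] at h3
  omega

open scoped Classical in
/-- The vectors modulo two with sum zero supported on a set with `c` elements: at most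
`2 ^ (c - 1)`. -/
theorem card_even_vectors {Q : Type*} [Fintype Q] (S : Finset Q) :
    (univ.filter fun e : Q → ZMod 2 => (∀ C, C ∉ S → e C = 0) ∧ ∑ C, e C = 0).card ≤
      2 ^ (S.card - 1) := by
  rcases S.eq_empty_or_nonempty with rfl | ⟨C₁, hC₁⟩
  · rw [card_empty]
    refine card_le_one.2 fun e he e' he' => ?_
    rw [mem_filter] at he he'
    funext C
    rw [he.2.1 C (notMem_empty C), he'.2.1 C (notMem_empty C)]
  · have h1 : ∀ e ∈ (univ.filter fun e : Q → ZMod 2 => (∀ C, C ∉ S → e C = 0) ∧ ∑ C, e C = 0),
        (fun C : {C // C ∈ S.erase C₁} => e C.1) ∈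
          (univ : Finset ({C // C ∈ S.erase C₁} → ZMod 2)) := fun _ _ => mem_univ _
    refine (card_le_card_of_injOn _ h1 ?_).trans ?_
    · intro e he e' he' hee
      rw [mem_coe, mem_filter] at he he'
      have h2 : ∀ C, C ≠ C₁ → e C = e' C := by
        intro C hC
        by_cases hCS : C ∈ S
        · exact congrFun hee ⟨C, mem_erase.2 ⟨hC, hCS⟩⟩
        · rw [he.2.1 C hCS, he'.2.1 C hCS]
      funext C
      by_cases hC : C = C₁
      · have h3 := he.2.2
        have h4 := he'.2.2
        rw [← add_sum_erase _ _ (mem_univ C₁)] at h3 h4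
        have h5 : ∑ x ∈ univ.erase C₁, e x = ∑ x ∈ univ.erase C₁, e' x :=
          sum_congr rfl fun x hx => h2 x (ne_of_mem_erase hx)
        rw [h5] at h3
        rw [hC]
        exact add_right_cancel (h3.trans h4.symm)
      · exact h2 C hC
    · rw [card_univ, Fintype.card_fun, ZMod.card, Fintype.card_coe, card_erase_of_mem hC₁]

end Pool.Agent.H547_pp
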