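import Pool.Agent.H547_pp.Fermat

/-!
# The counting theorem for products of Fermat varieties of even dimension
-/

set_option autoImplicit false

namespace Pool.Agent.H547_pp

open Finset

section

variable {ι : Type} [Fintype ι] {m : ℕ} [NeZero m] {h : ι → ℕ}

/-- the residues of `b` satisfy `P` -/
def okE {k : ℕ} (P : ZMod m → Prop) (b : E1 m k) : Prop := ∀ a, b = Sum.inr a → ∀ i, P (a i)

/-- the residues of `x` satisfy `P` -/
def okH {k : ℕ} (P : ZMod m → Prop) (b : H1 m k) : Prop := ∀ a, b = Sum.inr a → ∀ i, P (a i)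

/-- the codimension -/
def cE {k : ℕ} (b : E1 m k) : ℕ := Sum.elim (fun l : Fin (2 * k + 1) => (l : ℕ)) (fun _ => k) b

/-- the codimension -/
def cH {k : ℕ} (b : H1 m k) : ℕ := Sum.elim (fun l : Fin (2 * k + 1) => (l : ℕ)) (fun _ => k) b

omit [NeZero m] in
lemma cH_f1 {k : ℕ} (b : E1 m k) : cH (f1 b) = cE b := by rcases b with l | a <;> rfl
omit [NeZero m] in
lemma cH_s1 {k : ℕ} (b : E1 m k) : cH (s1 b) = cE b := by rcases b with l | a <;> rfl
omit [NeZero m] in
lemma cE_g1 {k : ℕ} (x z : H1 m k) : cE (g1 x z) = cH x := by rcases x with l | a <;> rfl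

omit [NeZero m] in
lemma okH_f1 {k : ℕ} {P : ZMod m → Prop} {b : E1 m k} (hb : okE P b) : okH P (f1 b) := by
  rcases b with l | a
  · intro a ha; simp [f1] at ha
  · intro a' ha i
    simp only [f1, Sum.map_inr, Sum.inr.injEq] at ha
    rw [← ha]
    exact hb a rfl _

omit [NeZero m] in
lemma okH_s1 {k : ℕ} {P : ZMod m → Prop} (hP : ∀ a, P a → P (-a)) {b : E1 m k} (hb : okE P b) :
    okH P (s1 b) := by
  rcases b with l | a
  · intro a ha; simp [s1] at ha
  · intro a' ha i
    simp only [s1, Sum.map_inr, Sum.inr.injEq] at ha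
    rw [← ha]
    exact hP _ (hb a rfl _)

omit [NeZero m] in
lemma okE_g1 {k : ℕ} {P : ZMod m → Prop} (hP : ∀ a, P a → P (-a)) {x z : H1 m k}
    (hs : sh1 x = sh1 z) (hx : okH P x) (hz : okH P z) : okE P (g1 x z) := by
  rcases x with l | a <;> rcases z with l' | a'
  · intro a ha; simp [g1] at ha
  · simp [sh1] at hs
  · simp [sh1] at hs
  · intro b hb i
    simp only [g1, Sum.map_inr, Sum.inr.injEq] at hb
    rw [← hb]
    obtain ⟨y, rfl⟩ := (eqv k).surjective i
    simp only [Equiv.symm_apply_apply]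
    rcases y with y | y
    · exact hx a rfl y
    · exact hP _ (hz a' rfl y)

open scoped Classical in
/-- **The counting theorem.** -/
theorem count {Q A : Type} [Fintype Q] [AddCommGroup A] (cl : ZMod m → Q)
    (hcl : ∀ a, cl (-a) = cl a) (S : Finset Q) (w : ZMod m → A) (hw : ∀ a, w (-a) = - w a)
    (P : ι → ZMod m → Prop) (hP : ∀ j a, P j a → P j (-a)) (hPS : ∀ j a, P j a → cl a ∈ S) (c : ℕ) :
    (univ.filter fun b : El m h => (∀ j, okE (P j) (b j)) ∧ (∀ j, sE (b j) id = 0) ∧
        ∑ j, cE (b j) = c ∧ sumEl b w = 0).card ≤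
      2 ^ (S.card - 1) * (univ.filter fun b : El m h => ((∀ j, okE (P j) (b j)) ∧
        (∀ j, sE (b j) id = 0) ∧ ∑ j, cE (b j) = c ∧ sumEl b w = 0) ∧
          ∀ C : Q, sumEl b (fun a => if cl a = C then (1 : ZMod 2) else 0) = 0).card := by
  let ind : Q → ZMod m → ZMod 2 := fun C a => if cl a = C then 1 else 0
  have hind : ∀ C a, ind C (-a) = ind C a := fun C a => by simp only [ind, hcl]
  let par : El m h → Q → ZMod 2 := fun b C => sumEl b (ind C)
  let Tt : El m h → Prop := fun b => (∀ j, okE (P j) (b j)) ∧ (∀ j, sE (b j) id = 0) ∧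
        ∑ j, cE (b j) = c ∧ sumEl b w = 0
  let E : Finset (Q → ZMod 2) := univ.filter fun e : Q → ZMod 2 =>
    (∀ C, C ∉ S → e C = 0) ∧ ∑ C, e C = 0
  let X := {x : Hf m h // (∀ j, okH (P j) (x j)) ∧ ∑ j, cH (x j) = c}
  let f : X → (∀ j : ι, Option (Fin (2 * h j + 1))) × (ι → ZMod m) × A := fun x =>
    (shape x.1, fun j => sH (x.1 j) id, sumHf x.1 w)
  let γ : X → Q → ZMod 2 := fun x C => sumHf x.1 (ind C)
  have hneg2 : ∀ y : ZMod 2, -y = y := by decide
  -- the condition for `b` in terms of the halves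
  have hcond : ∀ b : El m h, ((∀ j, sE (b j) id = 0) ∧ sumEl b w = 0) ↔
      ((fun j => sH (fstHf b j) id) = (fun j => sH (sndHf b j) id) ∧
        sumHf (fstHf b) w = sumHf (sndHf b) w) := by
    intro b
    have h1 : sumEl b w = sumHf (fstHf b) w - sumHf (sndHf b) w := by
      rw [sumEl_eq, sub_eq_add_neg, ← sumHf_neg]
      simp only [hw]
    have h2 : ∀ j, sE (b j) id = sH (fstHf b j) id - sH (sndHf b j) id := by
      intro j
      rw [sE_eq, sub_eq_add_neg, ← sH_neg]
      rfl
    rw [h1, sub_eq_zero]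
    refine and_congr_left fun _ => ?_
    rw [funext_iff]
    refine forall_congr' fun j => ?_
    rw [h2, sub_eq_zero]
  have hparb : ∀ b : El m h, par b = (fun C => sumHf (fstHf b) (ind C)) +
      fun C => sumHf (sndHf b) (ind C) := by
    intro b
    funext C
    simp only [par, Pi.add_apply]
    rw [sumEl_eq]
    simp only [hind]
  -- the fibres
  have hle1 : ∀ e : Q → ZMod 2, (univ.filter fun b : El m h => Tt b ∧ par b = e).card ≤
      (univ.filter fun q : X × X => f q.1 = f q.2 ∧ γ q.2 = γ q.1 - e).card := by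
    intro e
    have hx : ∀ b : El m h, Tt b → (∀ j, okH (P j) (fstHf b j)) ∧ ∑ j, cH (fstHf b j) = c := by
      intro b hb
      refine ⟨fun j => okH_f1 (hb.1 j), ?_⟩
      rw [← hb.2.2.1]
      exact sum_congr rfl fun j _ => cH_f1 (b j)
    have hz : ∀ b : El m h, Tt b → (∀ j, okH (P j) (sndHf b j)) ∧ ∑ j, cH (sndHf b j) = c := by
      intro b hb
      refine ⟨fun j => okH_s1 (hP j) (hb.1 j), ?_⟩
      rw [← hb.2.2.1]
      exact sum_congr rfl fun j _ => cH_s1 (b j)
    rw [← Fintype.card_subtype, ← Fintype.card_subtype]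
    refine Fintype.card_le_of_injective (fun b : {b : El m h // Tt b ∧ par b = e} =>
      (⟨((⟨fstHf b.1, hx b.1 b.2.1⟩, ⟨sndHf b.1, hz b.1 b.2.1⟩) : X × X), ?_⟩ :
        {q : X × X // f q.1 = f q.2 ∧ γ q.2 = γ q.1 - e})) ?_
    · obtain ⟨b, hb, hbe⟩ := b
      have h1 := (hcond b).1 ⟨hb.2.1, hb.2.2.2⟩
      refine ⟨?_, ?_⟩
      · simp only [f]
        exact Prod.ext (shape_fst_snd b) (Prod.ext h1.1 h1.2)
      · have h2 := hparb b
        rw [hbe] at h2
        simp only [γ]
        rw [h2]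
        funext C
        simp only [Pi.sub_apply, Pi.add_apply]
        rw [sub_add_cancel_left, hneg2]
    · intro b b' hbb
      have h1 := congrArg (fun q : {q : X × X // f q.1 = f q.2 ∧ γ q.2 = γ q.1 - e} => q.1.1.1) hbb
      have h2 := congrArg (fun q : {q : X × X // f q.1 = f q.2 ∧ γ q.2 = γ q.1 - e} => q.1.2.1) hbb
      simp only at h1 h2
      apply Subtype.ext
      rw [← glue_fst_snd b.1, ← glue_fst_snd b'.1, h1, h2]
  have hle2 : (univ.filter fun q : X × X => f q.1 = f q.2 ∧ γ q.2 = γ q.1).card ≤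
      (univ.filter fun b : El m h => Tt b ∧ ∀ C : Q, par b C = 0).card := by
    rw [← Fintype.card_subtype, ← Fintype.card_subtype]
    have hsh : ∀ q : {q : X × X // f q.1 = f q.2 ∧ γ q.2 = γ q.1}, shape q.1.1.1 = shape q.1.2.1 :=
      fun q => congrArg Prod.fst q.2.1
    refine Fintype.card_le_of_injective
      (fun q : {q : X × X // f q.1 = f q.2 ∧ γ q.2 = γ q.1} =>
        (⟨glue q.1.1.1 q.1.2.1, ?_⟩ : {b : El m h // Tt b ∧ ∀ C : Q, par b C = 0})) ?_
    · have hs := hsh q
      obtain ⟨⟨x, z⟩, hq1, hq2⟩ := q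
      simp only at hs ⊢
      have h1 : (∀ j, sE (glue x.1 z.1 j) id = 0) ∧ sumEl (glue x.1 z.1) w = 0 := by
        rw [hcond, fst_glue, snd_glue hs]
        exact ⟨congrArg (fun u => u.2.1) hq1, congrArg (fun u => u.2.2) hq1⟩
      refine ⟨⟨fun j => okE_g1 (hP j) (congrFun hs j) (x.2.1 j) (z.2.1 j), h1.1, ?_, h1.2⟩, ?_⟩
      · exact (sum_congr rfl fun j _ => cE_g1 _ _).trans x.2.2
      · intro C
        rw [hparb, fst_glue, snd_glue hs]
        have h2 := congrFun hq2 C
        simp only [γ] at h2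
        rw [Pi.add_apply, h2, ← two_mul]
        have h3 : (2 : ZMod 2) = 0 := by decide
        rw [h3, zero_mul]
    · intro q q' hqq
      have hs := hsh q
      have hs' := hsh q'
      have h0 := congrArg (fun b : {b : El m h // Tt b ∧ ∀ C : Q, par b C = 0} => b.1) hqq
      simp only at h0
      have h1 := congrArg fstHf h0
      have h2 := congrArg sndHf h0
      rw [fst_glue, fst_glue] at h1
      rw [snd_glue hs, snd_glue hs'] at h2
      exact Subtype.ext (Prod.ext (Subtype.ext h1) (Subtype.ext h2))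
  -- the parity vector
  have hparE : ∀ b : El m h, Tt b → par b ∈ E := by
    intro b hb
    rw [mem_filter]
    refine ⟨mem_univ _, ?_, ?_⟩
    · intro C hC
      simp only [par, sumEl]
      refine sum_eq_zero fun j _ => ?_
      have h1 := hb.1 j
      rcases hbj : b j with l | a
      · rfl
      · simp only [sE, Sum.elim_inr, ind]
        refine sum_eq_zero fun i _ => ?_
        rw [if_neg]
        intro h2
        exact hC (h2 ▸ hPS j _ (h1 a hbj i))
    · simp only [par, sumEl]
      rw [sum_comm]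
      refine sum_eq_zero fun j _ => ?_
      rcases b j with l | a
      · simp [sE]
      · simp only [sE, Sum.elim_inr, ind]
        rw [sum_comm]
        simp only [sum_ite_eq, mem_univ, if_true, sum_const, card_univ, Fintype.card_fin]
        rw [nsmul_eq_mul, mul_one]
        push_cast
        have h3 : (2 : ZMod 2) = 0 := by decide
        rw [h3, zero_mul, add_zero]
  -- conclusion
  have hsum : (univ.filter fun b : El m h => Tt b) =
      E.biUnion fun e => univ.filter fun b : El m h => Tt b ∧ par b = e := by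
    ext b
    simp only [mem_filter, mem_univ, true_and, mem_biUnion]
    constructor
    · intro hb
      exact ⟨par b, hparE b hb, hb, rfl⟩
    · rintro ⟨e, _, hb, _⟩
      exact hb
  change (univ.filter fun b : El m h => Tt b).card ≤
      2 ^ (S.card - 1) * (univ.filter fun b : El m h => Tt b ∧ ∀ C : Q, par b C = 0).card
  rw [hsum]
  refine (card_biUnion_le).trans ?_
  have hmid : ∀ e : Q → ZMod 2,
      (univ.filter fun q : X × X => f q.1 = f q.2 ∧ γ q.2 = γ q.1 - e).card ≤
        (univ.filter fun q : X × X => f q.1 = f q.2 ∧ γ q.2 = γ q.1).card := by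
    intro e
    have h6 := card_pairs_le f γ e
    calc _ = _ := by congr!
      _ ≤ _ := h6
      _ = _ := by congr!
  have hle : ∀ e ∈ E, (univ.filter fun b : El m h => Tt b ∧ par b = e).card ≤
      (univ.filter fun b : El m h => Tt b ∧ ∀ C : Q, par b C = 0).card :=
    fun e _ => (hle1 e).trans ((hmid e).trans hle2)
  refine (sum_le_sum hle).trans ?_
  rw [sum_const, smul_eq_mul]
  exact Nat.mul_le_mul_right _ (card_even_vectors S)

open scoped Classical in
/-- The counting theorem, for sets. -/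
theorem count_ncard {Q A : Type} [Fintype Q] [AddCommGroup A] (cl : ZMod m → Q)
    (hcl : ∀ a, cl (-a) = cl a) (S : Set Q) (w : ZMod m → A) (hw : ∀ a, w (-a) = - w a)
    (P : ι → ZMod m → Prop) (hP : ∀ j a, P j a → P j (-a)) (hPS : ∀ j a, P j a → cl a ∈ S) (c : ℕ)
    (T K : Set (El m h))
    (hT : ∀ b, b ∈ T ↔ (∀ j, okE (P j) (b j)) ∧ (∀ j, sE (b j) id = 0) ∧
        ∑ j, cE (b j) = c ∧ sumEl b w = 0)
    (hK : ∀ b, b ∈ T → (∀ C : Q, sumEl b (fun a => if cl a = C then (1 : ZMod 2) else 0) = 0) →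
      b ∈ K) : T.ncard ≤ 2 ^ (S.ncard - 1) * K.ncard := by
  have hSf : S.Finite := Set.toFinite S
  have h1 := count (h := h) cl hcl hSf.toFinset w hw P hP
    (fun j a ha => hSf.mem_toFinset.2 (hPS j a ha)) c
  rw [← Set.ncard_eq_toFinset_card S hSf, ← Set.ncard_coe_finset, ← Set.ncard_coe_finset] at h1
  have h2 : T.ncard = Set.ncard (↑(univ.filter fun b : El m h => (∀ j, okE (P j) (b j)) ∧
      (∀ j, sE (b j) id = 0) ∧ ∑ j, cE (b j) = c ∧ sumEl b w = 0) : Set (El m h)) := by
    congr 1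
    ext b
    rw [hT b]
    simp
  rw [h2]
  refine h1.trans (Nat.mul_le_mul_left _ (Set.ncard_le_ncard ?_ (Set.toFinite _)))
  intro b hb
  rw [mem_coe, mem_filter] at hb
  exact hK b ((hT b).2 hb.2.1) hb.2.2

end

end Pool.Agent.H547_pp
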