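import Pool.Agent.H916Y.Conv
import Pool.Agent.H547_pp.Auto

/-!
# Splitting the characters of products of Fermat varieties of even dimension into halves
-/

set_option autoImplicit false

namespace Pool.Agent.H547_pp

open Finset

/-- the indices of the two halves -/
def eqv (k : ℕ) : Fin (k + 1) ⊕ Fin (k + 1) ≃ Fin (2 * k + 2) :=
  finSumFinEquiv.trans (finCongr (by ring))

lemma sum_eqv {M : Type*} [AddCommMonoid M] (k : ℕ) (F : Fin (2 * k + 2) → M) :
    ∑ i, F i = ∑ i, F (eqv k (Sum.inl i)) + ∑ i, F (eqv k (Sum.inr i)) := by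
  rw [← (eqv k).sum_comp F, Fintype.sum_sum_type]

section one

variable {m k : ℕ}

/-- a basis element for one factor -/
abbrev E1 (m k : ℕ) := Fin (2 * k + 1) ⊕ (Fin (2 * k + 2) → ZMod m)

/-- half of it -/
abbrev H1 (m k : ℕ) := Fin (2 * k + 1) ⊕ (Fin (k + 1) → ZMod m)

/-- sum of a function over the residues -/
def sE {M : Type*} [AddCommMonoid M] (b : E1 m k) (G : ZMod m → M) : M :=
  Sum.elim (fun _ => 0) (fun a => ∑ i, G (a i)) b

/-- sum of a function over the residues -/
def sH {M : Type*} [AddCommMonoid M] (b : H1 m k) (G : ZMod m → M) : M :=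
  Sum.elim (fun _ => 0) (fun a => ∑ i, G (a i)) b

/-- first half -/
def f1 (b : E1 m k) : H1 m k := b.map id fun a i => a (eqv k (Sum.inl i))

/-- negative of the second half -/
def s1 (b : E1 m k) : H1 m k := b.map id fun a i => - a (eqv k (Sum.inr i))

/-- the residues -/
def res1 (z : H1 m k) : Fin (k + 1) → ZMod m := Sum.elim (fun _ _ => 0) id z

/-- gluing -/
def g1 (x z : H1 m k) : E1 m k :=
  x.map id fun a i => Sum.elim a (fun i' => - res1 z i') ((eqv k).symm i)

/-- the shape -/
def sh1 (x : H1 m k) : Option (Fin (2 * k + 1)) := Sum.elim some (fun _ => none) x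

lemma g1_f1_s1 (b : E1 m k) : g1 (f1 b) (s1 b) = b := by
  rcases b with l | a
  · rfl
  · simp only [g1, f1, s1, res1, Sum.map_inr, Sum.elim_inr, id_eq, neg_neg]
    congr 1
    funext i
    obtain ⟨y, rfl⟩ := (eqv k).surjective i
    rw [Equiv.symm_apply_apply]
    rcases y with y | y <;> rfl

lemma f1_g1 (x z : H1 m k) : f1 (g1 x z) = x := by
  rcases x with l | a
  · rfl
  · simp only [g1, f1, Sum.map_inr, Equiv.symm_apply_apply, Sum.elim_inl]

lemma s1_g1 {x z : H1 m k} (hs : sh1 x = sh1 z) : s1 (g1 x z) = z := by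
  rcases x with l | a <;> rcases z with l' | a'
  · simp only [sh1, Sum.elim_inl, Option.some.injEq] at hs
    rw [hs]; rfl
  · simp [sh1] at hs
  · simp [sh1] at hs
  · simp only [g1, s1, res1, Sum.map_inr, Equiv.symm_apply_apply, Sum.elim_inr, neg_neg, id_eq]

lemma sh1_eq (b : E1 m k) : sh1 (f1 b) = sh1 (s1 b) := by
  rcases b with l | a <;> rfl

lemma sE_eq {M : Type*} [AddCommMonoid M] (b : E1 m k) (G : ZMod m → M) :
    sE b G = sH (f1 b) G + sH (s1 b) fun a => G (-a) := by
  rcases b with l | a
  · simp [sE, sH, f1, s1]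
  · simp only [sE, sH, f1, s1, Sum.elim_inr, Sum.map_inr, neg_neg]
    exact sum_eqv k fun i => G (a i)

lemma sH_add {M : Type*} [AddCommMonoid M] (b : H1 m k) (G G' : ZMod m → M) :
    (sH b fun a => G a + G' a) = sH b G + sH b G' := by
  rcases b with l | a
  · simp [sH]
  · simp [sH, sum_add_distrib]

lemma sH_neg {M : Type*} [AddCommGroup M] (b : H1 m k) (G : ZMod m → M) :
    (sH b fun a => - G a) = - sH b G := by
  rcases b with l | a
  · simp [sH]
  · simp [sH, sum_neg_distrib]

end one

section halves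

variable {ι : Type} [Fintype ι] {m : ℕ} {h : ι → ℕ}

/-- a basis element of the cohomology of the product -/
abbrev El (m : ℕ) {ι : Type} (h : ι → ℕ) := ∀ j : ι, E1 m (h j)

/-- half of it -/
abbrev Hf (m : ℕ) {ι : Type} (h : ι → ℕ) := ∀ j : ι, H1 m (h j)

/-- sum of a function over the residues of `b` -/
def sumEl {M : Type*} [AddCommMonoid M] (b : El m h) (G : ZMod m → M) : M := ∑ j, sE (b j) G

/-- sum of a function over the residues of `x` -/
def sumHf {M : Type*} [AddCommMonoid M] (x : Hf m h) (G : ZMod m → M) : M := ∑ j, sH (x j) G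

/-- the first half -/
def fstHf (b : El m h) : Hf m h := fun j => f1 (b j)

/-- the negative of the second half -/
def sndHf (b : El m h) : Hf m h := fun j => s1 (b j)

/-- gluing -/
def glue (x z : Hf m h) : El m h := fun j => g1 (x j) (z j)

/-- the shape -/
def shape (x : Hf m h) : ∀ j : ι, Option (Fin (2 * h j + 1)) := fun j => sh1 (x j)

omit [Fintype ι] in
lemma glue_fst_snd (b : El m h) : glue (fstHf b) (sndHf b) = b := funext fun j => g1_f1_s1 (b j)

omit [Fintype ι] in
lemma fst_glue {x z : Hf m h} : fstHf (glue x z) = x := funext fun j => f1_g1 (x j) (z j)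

omit [Fintype ι] in
lemma snd_glue {x z : Hf m h} (hs : shape x = shape z) : sndHf (glue x z) = z :=
  funext fun j => s1_g1 (congrFun hs j)

omit [Fintype ι] in
lemma shape_fst_snd (b : El m h) : shape (fstHf b) = shape (sndHf b) :=
  funext fun j => sh1_eq (b j)

lemma sumEl_eq {M : Type*} [AddCommMonoid M] (b : El m h) (G : ZMod m → M) :
    sumEl b G = sumHf (fstHf b) G + sumHf (sndHf b) fun a => G (-a) := by
  unfold sumEl sumHf
  rw [← sum_add_distrib]
  exact sum_congr rfl fun j _ => sE_eq (b j) G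

lemma sumHf_neg {M : Type*} [AddCommGroup M] (x : Hf m h) (G : ZMod m → M) :
    (sumHf x fun a => - G a) = - sumHf x G := by
  unfold sumHf
  rw [← sum_neg_distrib]
  exact sum_congr rfl fun j _ => sH_neg (x j) G

end halves

end Pool.Agent.H547_pp
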