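import Pool.Agent.H547_pp.Count

/-!
# Classes of linked residues, and the parity theorem for them
-/

set_option autoImplicit false

namespace Pool.Agent.H547_pp

open Finset Pool.Agent.H916T Pool.Agent.H916R2

/-- the label of a residue -/
noncomputable def label {m : ℕ} (a : ZMod m) : Finset ℕ :=
  open scoped Classical in if 2 ∣ addOrderOf a then ∅ else (addOrderOf a).primeFactors

lemma label_mem {m : ℕ} [NeZero m] (a : ZMod m) : label a ∈ (m.primeFactors.erase 2).powerset := by
  unfold label
  rw [mem_powerset]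
  split_ifs with h
  · exact empty_subset _
  · intro q hq
    rw [mem_erase]
    refine ⟨?_, Nat.primeFactors_mono (H916Z.addOrderOf_dvd_level a) (NeZero.ne m) hq⟩
    rintro rfl
    exact h (Nat.dvd_of_mem_primeFactors hq)

lemma link_of_label {p m : ℕ} [NeZero m] {a b : ZMod m} (ha : a ≠ 0) (hb : b ≠ 0)
    (h : label a = label b) : H916Z.Link p a b := by
  have h1 : ∀ x : ZMod m, x ≠ 0 → ¬ 2 ∣ addOrderOf x → (addOrderOf x).primeFactors ≠ ∅ := by
    intro x hx _ h0
    rcases Nat.primeFactors_eq_empty.mp h0 with h2 | h2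
    · exact (addOrderOf_pos x).ne' h2
    · exact hx (AddMonoid.addOrderOf_eq_one_iff.mp h2)
  unfold label at h
  refine ⟨ha, hb, ?_⟩
  split_ifs at h with h2 h3 h3
  · exact Or.inr (Or.inl ⟨h2, h3⟩)
  · exact absurd h.symm (h1 b hb h3)
  · exact absurd h (h1 a ha h2)
  · exact Or.inl h

/-- The classes of nonzero residues for a relation `L` which contains the pairs of nonzero residues
with the same label: there are at most `2 ^ r` of them. -/
theorem ncard_classes_le {p m : ℕ} [NeZero m] (L : ZMod m → ZMod m → Prop)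
    (hL : ∀ a b, H916Z.Link p a b → L a b) :
    Set.ncard {C : Quot L | C ≠ Quot.mk _ 0} ≤ 2 ^ (m.primeFactors.erase 2).card := by
  classical
  let g : Finset ℕ → Quot L := fun F =>
    if h : ∃ a : ZMod m, a ≠ 0 ∧ label a = F then Quot.mk _ h.choose else Quot.mk _ 0
  have hfin : Finite (Quot L) := Quot.finite L
  have hsub : {C : Quot L | C ≠ Quot.mk _ 0} ⊆ ↑((m.primeFactors.erase 2).powerset.image g) := by
    intro C hC
    obtain ⟨a, rfl⟩ := Quot.exists_rep C
    have ha : a ≠ 0 := by
      rintro rfl
      exact hC rfl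
    rw [mem_coe, mem_image]
    refine ⟨label a, label_mem a, ?_⟩
    have h : ∃ b : ZMod m, b ≠ 0 ∧ label b = label a := ⟨a, ha, rfl⟩
    simp only [g]
    rw [dif_pos h]
    exact Quot.sound (hL _ _ (link_of_label h.choose_spec.1 ha h.choose_spec.2))
  calc Set.ncard {C : Quot L | C ≠ Quot.mk _ 0}
      ≤ Set.ncard (↑((m.primeFactors.erase 2).powerset.image g) : Set (Quot L)) :=
        Set.ncard_le_ncard hsub (Finset.finite_toSet _)
    _ = ((m.primeFactors.erase 2).powerset.image g).card := Set.ncard_coe_finset _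
    _ ≤ (m.primeFactors.erase 2).powerset.card := card_image_le
    _ = 2 ^ (m.primeFactors.erase 2).card := card_powerset _

lemma link_neg {p m : ℕ} [NeZero m] {a : ZMod m} (ha : a ≠ 0) : H916Z.Link p (-a) a :=
  ⟨neg_ne_zero.2 ha, ha, Or.inl (by rw [addOrderOf_neg])⟩

open scoped Classical in
lemma countP_cast {α : Type*} (P : α → Prop) (s : Multiset α) :
    ((s.countP P : ℕ) : ZMod 2) = (s.map fun x => if P x then (1 : ZMod 2) else 0).sum := by
  induction s using Multiset.induction_on with
  | empty => simp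
  | cons a s ih =>
    rw [Multiset.map_cons, Multiset.sum_cons, Multiset.countP_cons, Nat.cast_add, ih, add_comm]
    congr 1
    split_ifs <;> simp

open scoped Classical in
/-- The parity theorem in terms of classes. -/
theorem generated_of_parity {p m : ℕ} (hp : p.Prime) (hm : 0 < m) (hpm : p.Coprime m)
    {s : Multiset (ZMod m)} (hs : IsTate p m s) (hne : s ≠ 0) (L : ZMod m → ZMod m → Prop)
    (hL : ∀ a b, H916Z.Link p a b ↔ L a b)
    (hpar : ∀ C : Quot L, (s.map fun a => if Quot.mk L a = C then (1 : ZMod 2) else 0).sum = 0) :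
    ∃ N : ℕ, 0 < N ∧ p.Coprime N ∧
      H916T.Generated (N * m) (H916Z.ZBase p (N * m))
        (s.map fun a => ((N * a.val : ℕ) : ZMod (N * m))) := by
  have hz : NeZero m := ⟨hm.ne'⟩
  obtain ⟨N, hN, hpN, H⟩ := H916Y.parity_main hp hm hpm hs hne (by
    intro a
    have h1 := hpar (Quot.mk L a)
    rw [← countP_cast, ZMod.natCast_eq_zero_iff, ← even_iff_two_dvd] at h1
    have hLL : H916Z.Link p = L := by
      funext x y
      exact propext (hL x y)
    have h2 : s.countP (fun b => Relation.EqvGen (H916Z.Link p) a b) =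
        s.countP (fun b => Quot.mk L b = Quot.mk L a) := by
      rw [hLL]
      refine Multiset.countP_congr rfl fun b _ => ?_
      rw [← Quot.eq]
      exact propext eq_comm
    rw [h2]
    exact h1)
  exact ⟨N, hN, hpN, H (N * m) rfl⟩

end Pool.Agent.H547_pp
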